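import Pool.Agent.Lib.MP_a2eab4_al.Fin

set_option autoImplicit false

namespace Pool.Agent.Results.MP_a2eab4_al.FiniteCentralizer

/-- The intersection of all subgroups `H` that contain an element `h` fixing exactly one coset of
`H`, that is, `x⁻¹ h x ∈ H` only for `x ∈ H`. -/
def isoCore (Q : Type*) [Group Q] : Subgroup Q :=
  sInf {H : Subgroup Q | ∃ h ∈ H, ∀ x : Q, x⁻¹ * h * x ∈ H → x ∈ H}

open Pool.Agent.Lib.MP_a2eab4_al in
theorem result (G : Type*) [Group G] (j : ℕ) (k : G ⧸ Subgroup.upperCentralSeries G j)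
    (hk : ((Subgroup.centralizer {k} ⊓ isoCore (G ⧸ Subgroup.upperCentralSeries G j) :
      Subgroup (G ⧸ Subgroup.upperCentralSeries G j)) :
        Set (G ⧸ Subgroup.upperCentralSeries G j)).Finite) :
    ∃ H : Subgroup G, (H : Set G) = {a : G | ∃ n : ℕ, ∀ g : G,
      (fun x : G => x⁻¹ * g⁻¹ * x * g)^[n] a = 1} :=
  exists_subgroup_of_quotient j (exists_subgroup (fun a n ha => Subgroup.mem_sInf.mpr
    fun H hH => by
      obtain ⟨h, hh, hi⟩ := hH
      exact mem_of_isolated hh hi n a (by rw [ha]; exact H.one_mem)) hk)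

end Pool.Agent.Results.MP_a2eab4_al.FiniteCentralizer
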