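import Pool.Agent.Lib.MP_a2eab4_al.PwD

set_option autoImplicit false

namespace Pool.Agent.Results.MP_a2eab4_al.Powers

/-- A power `a ^ i` is a right `n`-Engel element when `q` does not divide `i`, and is not a right
Engel element when `i` is a nonzero multiple of `q`. -/
theorem result : ∃ n : ℕ, ∀ q : ℕ, 2 ≤ q → ∃ (G : Type) (_ : Group G) (a g : G),
    (∀ i : ℤ, ¬ (q : ℤ) ∣ i → ∀ y : G, (fun x : G => x⁻¹ * y⁻¹ * x * y)^[n] (a ^ i) = 1) ∧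
    ∀ i : ℤ, i ≠ 0 → (q : ℤ) ∣ i → ∀ m : ℕ,
      (fun x : G => x⁻¹ * g⁻¹ * x * g)^[m] (a ^ i) ≠ 1 :=
  Pool.Agent.Lib.MP_a2eab4_al.Re.powers.imp fun _ h q hq => h q (by omega)

end Pool.Agent.Results.MP_a2eab4_al.Powers
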